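import Mathlib

/-!
A four-dimensional `4`-reptile simplex: the fundamental alcove of the affine Coxeter group of
type `F₄`. Since `4` is not a fourth power, this answers the question in the negative.
-/

set_option autoImplicit false

namespace Pool.Agent.Results.MP_9fc4df_co.F4Alcove

/-- The closed solid simplex spanned by the `d + 1` affinely independent vertices of `s`. -/
def solid {d : ℕ} (s : Affine.Simplex ℝ (EuclideanSpace ℝ (Fin d)) d) :
    Set (EuclideanSpace ℝ (Fin d)) :=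
  convexHull ℝ (Set.range s.points)

/-- The `d`-dimensional simplex `s` in `ℝᵈ` is a `k`-reptile: it is the union of `k` simplices with
pairwise disjoint interiors, all congruent to one another and each similar to `s`. -/
def IsReptile (d k : ℕ) (s : Affine.Simplex ℝ (EuclideanSpace ℝ (Fin d)) d) : Prop :=
  ∃ t : Fin k → Affine.Simplex ℝ (EuclideanSpace ℝ (Fin d)) d,
    solid s = ⋃ i, solid (t i) ∧
    (∀ i j, i ≠ j → Disjoint (interior (solid (t i))) (interior (solid (t j)))) ∧
    (∀ i j, ∃ f : EuclideanSpace ℝ (Fin d) ≃ᵢ EuclideanSpace ℝ (Fin d),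
      f '' solid (t i) = solid (t j)) ∧
    (∀ i, ∃ f : EuclideanSpace ℝ (Fin d) ≃ᵈ EuclideanSpace ℝ (Fin d),
      f '' solid s = solid (t i))

abbrev E4 := EuclideanSpace ℝ (Fin 4)

/-- the vertices of the big simplex -/
noncomputable def verts : Fin 5 → E4 :=
  ![!₂[0, 0, 0, 0], !₂[1, 0, 0, 0], !₂[1, 1, 0, 0], !₂[1, 1/2, 1/2, 0], !₂[1, 1/3, 1/3, 1/3]]

lemma verts_indep : AffineIndependent ℝ verts := by
  rw [affineIndependent_iff_of_fintype]
  intro w hw h
  rw [Finset.weightedVSub_eq_linear_combination _ hw] at h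
  have h0 := congrArg (fun x : E4 => x 0) h
  have h1 := congrArg (fun x : E4 => x 1) h
  have h2 := congrArg (fun x : E4 => x 2) h
  have h3 := congrArg (fun x : E4 => x 3) h
  simp [Fin.sum_univ_five, verts] at h0 h1 h2 h3
  simp [Fin.sum_univ_five] at hw
  have e4 : w 4 = 0 := by linarith
  have e3 : w 3 = 0 := by linarith
  have e2 : w 2 = 0 := by linarith
  have e1 : w 1 = 0 := by linarith
  have e0 : w 0 = 0 := by linarith
  intro i
  fin_cases i <;> assumption

/-- the big simplex -/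
noncomputable def big : Affine.Simplex ℝ E4 4 := ⟨verts, verts_indep⟩

/-- inequalities describing the big simplex -/
def InBig (x : E4) : Prop :=
  x 1 + x 2 + x 3 ≤ x 0 ∧ x 2 ≤ x 1 ∧ x 3 ≤ x 2 ∧ 0 ≤ x 3 ∧ x 0 ≤ 1

lemma solid_big : solid big = {x | InBig x} := by
  apply Set.Subset.antisymm
  · apply convexHull_min
    · rintro x ⟨i, rfl⟩
      fin_cases i <;> simp [big, verts, InBig] <;> norm_num
    · intro x hx y hy a b ha hb hab
      obtain ⟨x1, x2, x3, x4, x5⟩ := hx
      obtain ⟨y1, y2, y3, y4, y5⟩ := hy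
      have hb' : b = 1 - a := by linarith
      subst hb'
      refine ⟨?_, ?_, ?_, ?_, ?_⟩ <;> simp only [PiLp.add_apply, PiLp.smul_apply, smul_eq_mul]
      · nlinarith [mul_le_mul_of_nonneg_left x1 ha, mul_le_mul_of_nonneg_left y1 hb]
      · nlinarith [mul_le_mul_of_nonneg_left x2 ha, mul_le_mul_of_nonneg_left y2 hb]
      · nlinarith [mul_le_mul_of_nonneg_left x3 ha, mul_le_mul_of_nonneg_left y3 hb]
      · nlinarith [mul_le_mul_of_nonneg_left x4 ha, mul_le_mul_of_nonneg_left y4 hb]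
      · nlinarith [mul_le_mul_of_nonneg_left x5 ha, mul_le_mul_of_nonneg_left y5 hb]
  · rintro x ⟨x1, x2, x3, x4, x5⟩
    have key := (convex_convexHull ℝ (Set.range big.points)).sum_mem (t := Finset.univ)
      (w := ![1 - x 0, x 0 - x 1 - x 2 - x 3, x 1 - x 2, 2 * (x 2 - x 3), 3 * x 3])
      (z := verts)
      (by intro i _; fin_cases i <;> simp <;> linarith)
      (by simp [Fin.sum_univ_five]; ring)
      (fun i _ => subset_convexHull _ _ ⟨i, rfl⟩)
    have e : ∑ i, (![1 - x 0, x 0 - x 1 - x 2 - x 3, x 1 - x 2, 2 * (x 2 - x 3), 3 * x 3] :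
        Fin 5 → ℝ) i • verts i = x := by
      ext j
      fin_cases j <;> simp [Fin.sum_univ_five, verts] <;> ring
    rw [e] at key
    exact key


lemma dist_sq (x y : E4) : dist x y ^ 2 =
    (x 0 - y 0) ^ 2 + (x 1 - y 1) ^ 2 + (x 2 - y 2) ^ 2 + (x 3 - y 3) ^ 2 := by
  rw [EuclideanSpace.dist_eq, Real.sq_sqrt (Finset.sum_nonneg fun i _ => sq_nonneg _)]
  simp [Fin.sum_univ_four, Real.dist_eq, sq_abs]

lemma dist_eq_of_sq {x y x' y' : E4} (h : dist x y ^ 2 = dist x' y' ^ 2) : dist x y = dist x' y' := by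
  rwa [sq_eq_sq₀ dist_nonneg dist_nonneg] at h

/-- reflection in the hyperplane `x₀ + x₁ = 1` -/
noncomputable def r1 : E4 ≃ᵢ E4 where
  toFun x := !₂[1 - x 1, 1 - x 0, x 2, x 3]
  invFun x := !₂[1 - x 1, 1 - x 0, x 2, x 3]
  left_inv x := by ext i; fin_cases i <;> simp
  right_inv x := by ext i; fin_cases i <;> simp
  isometry_toFun := by
    apply Isometry.of_dist_eq
    intro x y
    apply dist_eq_of_sq
    rw [dist_sq, dist_sq]
    simp
    ring

/-- reflection in the hyperplane `x₀ + x₂ = 1` -/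
noncomputable def r2 : E4 ≃ᵢ E4 where
  toFun x := !₂[1 - x 2, x 1, 1 - x 0, x 3]
  invFun x := !₂[1 - x 2, x 1, 1 - x 0, x 3]
  left_inv x := by ext i; fin_cases i <;> simp
  right_inv x := by ext i; fin_cases i <;> simp
  isometry_toFun := by
    apply Isometry.of_dist_eq
    intro x y
    apply dist_eq_of_sq
    rw [dist_sq, dist_sq]
    simp
    ring

/-- reflection in the hyperplane `x₀ + x₃ = 1` -/
noncomputable def r3 : E4 ≃ᵢ E4 where
  toFun x := !₂[1 - x 3, x 1, x 2, 1 - x 0]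
  invFun x := !₂[1 - x 3, x 1, x 2, 1 - x 0]
  left_inv x := by ext i; fin_cases i <;> simp
  right_inv x := by ext i; fin_cases i <;> simp
  isometry_toFun := by
    apply Isometry.of_dist_eq
    intro x y
    apply dist_eq_of_sq
    rw [dist_sq, dist_sq]
    simp
    ring

/-- the linear map `½ (x₀ + x₁, x₀ - x₁, x₂ + x₃, x₂ - x₃)` -/
noncomputable def half : E4 ≃ₗ[ℝ] E4 where
  toFun x := !₂[(x 0 + x 1) / 2, (x 0 - x 1) / 2, (x 2 + x 3) / 2, (x 2 - x 3) / 2]
  invFun x := !₂[x 0 + x 1, x 0 - x 1, x 2 + x 3, x 2 - x 3]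
  left_inv x := by ext i; fin_cases i <;> simp <;> ring
  right_inv x := by ext i; fin_cases i <;> simp
  map_add' x y := by ext i; fin_cases i <;> simp <;> ring
  map_smul' c x := by ext i; fin_cases i <;> simp <;> ring

/-- the same map as a dilation of ratio `1/√2` -/
noncomputable def halfD : E4 ≃ᵈ E4 where
  toEquiv := half.toEquiv
  edist_eq' := by
    refine ⟨Real.toNNReal (√2 / 2), ?_, ?_⟩
    · rw [ne_eq, Real.toNNReal_eq_zero, not_le]
      positivity
    · intro x y
      rw [edist_dist, edist_dist]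
      change _ = ENNReal.ofReal (√2 / 2) * _
      rw [← ENNReal.ofReal_mul (by positivity)]
      congr 1
      have h1 : (dist (half x) (half y)) ^ 2 = (√2 / 2 * dist x y) ^ 2 := by
        rw [mul_pow, dist_sq, dist_sq, div_pow, Real.sq_sqrt (by norm_num)]
        simp [half]
        ring
      have h2 : dist (half x) (half y) = √2 / 2 * dist x y := by
        rwa [sq_eq_sq₀ dist_nonneg (by positivity)] at h1
      exact h2

/-- the isometry carrying the first piece to the `i`-th one -/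
noncomputable def R : Fin 4 → (E4 ≃ᵢ E4) :=
  ![IsometryEquiv.refl E4, r1, r1.trans r2, (r1.trans r2).trans r3]

/-- the affine map carrying the big simplex to its `i`-th piece -/
noncomputable def G (i : Fin 4) : E4 ≃ᵃ[ℝ] E4 :=
  half.toAffineEquiv.trans (R i).toRealAffineIsometryEquiv.toAffineEquiv

lemma G_apply (i : Fin 4) (x : E4) : G i x = R i (half x) := rfl

/-- the pieces -/
noncomputable def piece (i : Fin 4) : Affine.Simplex ℝ E4 4 :=
  big.map (G i).toAffineMap (G i).injective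

lemma solid_piece (i : Fin 4) : solid (piece i) = R i '' (half '' solid big) := by
  have h : Set.range (piece i).points = (G i).toAffineMap '' Set.range big.points := by
    rw [← Set.range_comp]; rfl
  rw [solid, h, ← AffineMap.image_convexHull, Set.image_image]
  rfl

lemma mem_piece (i : Fin 4) (x : E4) :
    x ∈ solid (piece i) ↔ InBig (half.symm ((R i).symm x)) := by
  rw [solid_piece, solid_big]
  constructor
  · rintro ⟨y, ⟨z, hz, rfl⟩, rfl⟩
    rw [IsometryEquiv.symm_apply_apply, LinearEquiv.symm_apply_apply]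
    exact hz
  · intro h
    refine ⟨(R i).symm x, ⟨half.symm ((R i).symm x), h, ?_⟩, ?_⟩
    · rw [LinearEquiv.apply_symm_apply]
    · rw [IsometryEquiv.apply_symm_apply]

lemma half_symm_apply (x : E4) : half.symm x = !₂[x 0 + x 1, x 0 - x 1, x 2 + x 3, x 2 - x 3] := rfl

lemma mem_piece0 (x : E4) : x ∈ solid (piece 0) ↔
    x 1 + x 2 + x 3 ≤ x 0 ∧ x 2 ≤ x 1 ∧ x 3 ≤ x 2 ∧ 0 ≤ x 3 ∧ x 0 + x 1 ≤ 1 := by
  rw [mem_piece]
  have : (R 0).symm x = x := rfl
  rw [this, half_symm_apply]
  simp only [InBig]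
  simp
  constructor
  · rintro ⟨a, b, c, d, e⟩; refine ⟨?_, ?_, ?_, ?_, ?_⟩ <;> linarith
  · rintro ⟨a, b, c, d, e⟩; refine ⟨?_, ?_, ?_, ?_, ?_⟩ <;> linarith

lemma mem_piece1 (x : E4) : x ∈ solid (piece 1) ↔
    x 1 + x 2 + x 3 ≤ x 0 ∧ x 0 + x 2 ≤ 1 ∧ x 3 ≤ x 2 ∧ 0 ≤ x 3 ∧ 1 ≤ x 0 + x 1 := by
  rw [mem_piece]
  have : (R 1).symm x = !₂[1 - x 1, 1 - x 0, x 2, x 3] := rfl
  rw [this, half_symm_apply]
  simp only [InBig]
  simp
  constructor
  · rintro ⟨a, b, c, d, e⟩; refine ⟨?_, ?_, ?_, ?_, ?_⟩ <;> linarith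
  · rintro ⟨a, b, c, d, e⟩; refine ⟨?_, ?_, ?_, ?_, ?_⟩ <;> linarith

lemma mem_piece2 (x : E4) : x ∈ solid (piece 2) ↔
    x 1 + x 2 + x 3 ≤ x 0 ∧ x 2 ≤ x 1 ∧ x 0 + x 3 ≤ 1 ∧ 0 ≤ x 3 ∧ 1 ≤ x 0 + x 2 := by
  rw [mem_piece]
  have : (R 2).symm x = r1 (r2 x) := rfl
  have e : r1 (r2 x) = !₂[1 - x 1, x 2, 1 - x 0, x 3] := by
    ext i; fin_cases i <;> simp [r1, r2]
  rw [this, e, half_symm_apply]
  simp only [InBig]
  simp
  constructor
  · rintro ⟨a, b, c, d, e⟩; refine ⟨?_, ?_, ?_, ?_, ?_⟩ <;> linarith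
  · rintro ⟨a, b, c, d, e⟩; refine ⟨?_, ?_, ?_, ?_, ?_⟩ <;> linarith

lemma mem_piece3 (x : E4) : x ∈ solid (piece 3) ↔
    x 1 + x 2 + x 3 ≤ x 0 ∧ x 2 ≤ x 1 ∧ x 3 ≤ x 2 ∧ x 0 ≤ 1 ∧ 1 ≤ x 0 + x 3 := by
  rw [mem_piece]
  have : (R 3).symm x = r1 (r2 (r3 x)) := rfl
  have e : r1 (r2 (r3 x)) = !₂[1 - x 1, x 2, x 3, 1 - x 0] := by
    ext i; fin_cases i <;> simp [r1, r2, r3]
  rw [this, e, half_symm_apply]
  simp only [InBig]
  simp
  constructor
  · rintro ⟨a, b, c, d, e⟩; refine ⟨?_, ?_, ?_, ?_, ?_⟩ <;> linarith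
  · rintro ⟨a, b, c, d, e⟩; refine ⟨?_, ?_, ?_, ?_, ?_⟩ <;> linarith


/-- **The alcove of type `F₄` is a `4`-reptile simplex.** -/
lemma big_isReptile : IsReptile 4 4 big := by
  refine ⟨piece, ?_, ?_, ?_, ?_⟩
  · apply Set.Subset.antisymm
    · intro x hx
      rw [solid_big] at hx
      obtain ⟨h1, h2, h3, h4, h5⟩ := hx
      rw [Set.mem_iUnion]
      by_cases c1 : x 0 + x 1 ≤ 1
      · exact ⟨0, (mem_piece0 x).mpr ⟨h1, h2, h3, h4, c1⟩⟩
      rw [not_le] at c1
      by_cases c2 : x 0 + x 2 ≤ 1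
      · exact ⟨1, (mem_piece1 x).mpr ⟨h1, c2, h3, h4, c1.le⟩⟩
      rw [not_le] at c2
      by_cases c3 : x 0 + x 3 ≤ 1
      · exact ⟨2, (mem_piece2 x).mpr ⟨h1, h2, c3, h4, c2.le⟩⟩
      rw [not_le] at c3
      exact ⟨3, (mem_piece3 x).mpr ⟨h1, h2, h3, h5, c3.le⟩⟩
    · apply Set.iUnion_subset
      intro i x hx
      rw [solid_big]
      fin_cases i
      · obtain ⟨h1, h2, h3, h4, h5⟩ := (mem_piece0 x).mp hx
        exact ⟨h1, h2, h3, h4, by linarith⟩
      · obtain ⟨h1, h2, h3, h4, h5⟩ := (mem_piece1 x).mp hx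
        exact ⟨h1, by linarith, h3, h4, by linarith⟩
      · obtain ⟨h1, h2, h3, h4, h5⟩ := (mem_piece2 x).mp hx
        exact ⟨h1, h2, by linarith, h4, by linarith⟩
      · obtain ⟨h1, h2, h3, h4, h5⟩ := (mem_piece3 x).mp hx
        exact ⟨h1, h2, h3, by linarith, h4⟩
  · -- the pieces lie on different sides of the hyperplanes `x₀ + xⱼ = 1`
    have key : ∀ (j : Fin 4), j ≠ 0 → ∀ A B : Set E4, (∀ x ∈ A, x 0 + x j ≤ 1) →
        (∀ x ∈ B, 1 ≤ x 0 + x j) → Disjoint (interior A) (interior B) := by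
      intro j hj A B hA hB
      let L : E4 →L[ℝ] ℝ := EuclideanSpace.proj 0 + EuclideanSpace.proj j
      have hL : ∀ x : E4, L x = x 0 + x j := fun x => rfl
      have hne : L ≠ 0 := by
        intro h0
        have h1 : L (EuclideanSpace.single 0 (1:ℝ)) = 0 := by rw [h0]; rfl
        rw [hL] at h1
        simp [hj] at h1
      have hopen : IsOpenMap L := L.isOpenMap_of_ne_zero hne
      have h1 : interior A ⊆ {x | L x < 1} := by
        have hsub : A ⊆ L ⁻¹' Set.Iic 1 := fun x hx => hA x hx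
        have := interior_mono hsub
        rw [← hopen.preimage_interior_eq_interior_preimage L.continuous, interior_Iic] at this
        exact this
      have h2 : interior B ⊆ {x | 1 < L x} := by
        have hsub : B ⊆ L ⁻¹' Set.Ici 1 := fun x hx => hB x hx
        have := interior_mono hsub
        rw [← hopen.preimage_interior_eq_interior_preimage L.continuous, interior_Ici] at this
        exact this
      rw [Set.disjoint_left]
      intro x hx hx'
      have a1 : L x < 1 := h1 hx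
      have a2 : 1 < L x := h2 hx'
      linarith
    have h01 : Disjoint (interior (solid (piece 0))) (interior (solid (piece 1))) :=
      key 1 (by decide) _ _ (fun x hx => ((mem_piece0 x).mp hx).2.2.2.2)
        (fun x hx => ((mem_piece1 x).mp hx).2.2.2.2)
    have h02 : Disjoint (interior (solid (piece 0))) (interior (solid (piece 2))) :=
      key 1 (by decide) _ _ (fun x hx => ((mem_piece0 x).mp hx).2.2.2.2)
        (fun x hx => by obtain ⟨a, b, c, d, e⟩ := (mem_piece2 x).mp hx; linarith)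
    have h03 : Disjoint (interior (solid (piece 0))) (interior (solid (piece 3))) :=
      key 1 (by decide) _ _ (fun x hx => ((mem_piece0 x).mp hx).2.2.2.2)
        (fun x hx => by obtain ⟨a, b, c, d, e⟩ := (mem_piece3 x).mp hx; linarith)
    have h12 : Disjoint (interior (solid (piece 1))) (interior (solid (piece 2))) :=
      key 2 (by decide) _ _ (fun x hx => ((mem_piece1 x).mp hx).2.1)
        (fun x hx => ((mem_piece2 x).mp hx).2.2.2.2)
    have h13 : Disjoint (interior (solid (piece 1))) (interior (solid (piece 3))) :=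
      key 2 (by decide) _ _ (fun x hx => ((mem_piece1 x).mp hx).2.1)
        (fun x hx => by obtain ⟨a, b, c, d, e⟩ := (mem_piece3 x).mp hx; linarith)
    have h23 : Disjoint (interior (solid (piece 2))) (interior (solid (piece 3))) :=
      key 3 (by decide) _ _ (fun x hx => ((mem_piece2 x).mp hx).2.2.1)
        (fun x hx => ((mem_piece3 x).mp hx).2.2.2.2)
    intro i j hij
    fin_cases i <;> fin_cases j
    · exact absurd rfl hij
    · exact h01
    · exact h02
    · exact h03
    · exact h01.symm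
    · exact absurd rfl hij
    · exact h12
    · exact h13
    · exact h02.symm
    · exact h12.symm
    · exact absurd rfl hij
    · exact h23
    · exact h03.symm
    · exact h13.symm
    · exact h23.symm
    · exact absurd rfl hij
  · intro i j
    refine ⟨(R i).symm.trans (R j), ?_⟩
    rw [solid_piece, solid_piece, Set.image_image]
    apply Set.image_congr
    intro x _
    simp
  · intro i
    refine ⟨halfD.trans (R i).toDilationEquiv, ?_⟩
    rw [solid_piece, Set.image_image]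
    rfl

/-- **Disproof of Q1.** There are a dimension `d ≥ 4` and a number `k` which is not a perfect
`d`-th power such that a `d`-dimensional `k`-reptile simplex exists. -/
theorem result : ∃ d k : ℕ, 4 ≤ d ∧ (∃ s, IsReptile d k s) ∧ ∀ m : ℕ, k ≠ m ^ d := by
  refine ⟨4, 4, le_rfl, ⟨big, big_isReptile⟩, ?_⟩
  intro m hm
  rcases Nat.lt_or_ge m 2 with h | h
  · interval_cases m <;> simp at hm
  · have : 2 ^ 4 ≤ m ^ 4 := Nat.pow_le_pow_left h 4
    omega

end Pool.Agent.Results.MP_9fc4df_co.F4Alcove
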